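import Mathlib
import Pool.Agent.Helper761.QDev3

/-!
Hereditarily normal quasi-developable manifolds are metrizable, in particular Moore spaces.
-/

set_option autoImplicit false

namespace Pool.Agent.Results.MP_81c63a_gt.HereditarilyNormal

open Topology

/-- Let `X` be a manifold: a Hausdorff space in which every point lies in an open set homeomorphic
to an open subset of some Euclidean space. If `X` is quasi-developable and hereditarily normal, then
`X` is metrizable, and in particular regular and developable (a Moore space). -/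
theorem result :
    ∀ (X : Type) [TopologicalSpace X] [T2Space X],
      (∀ x : X, ∃ (n : ℕ) (e : OpenPartialHomeomorph X (EuclideanSpace ℝ (Fin n))),
        x ∈ e.source) →
      CompletelyNormalSpace X →
      (∃ G : ℕ → Set (Set X), (∀ k, ∀ g ∈ G k, IsOpen g) ∧
        ∀ (x : X) (U : Set X), IsOpen U → x ∈ U →
          ∃ k, (∃ g ∈ G k, x ∈ g) ∧ ∀ g ∈ G k, x ∈ g → g ⊆ U) →
      (TopologicalSpace.MetrizableSpace X ∧ RegularSpace X ∧
        ∃ G : ℕ → Set (Set X), (∀ k, (∀ g ∈ G k, IsOpen g) ∧ ⋃₀ G k = Set.univ) ∧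
          ∀ (x : X) (U : Set X), IsOpen U → x ∈ U →
            ∃ k, ∀ g ∈ G k, x ∈ g → g ⊆ U) := by
  intro X _ _ hloc hN hG
  obtain ⟨G, hGo, hG⟩ := hG
  choose d e he using hloc
  have hLC : LocallyCompactSpace X := by
    have this : ∀ x : X, (𝓝 x).HasBasis
        (fun s ↦ s ∈ 𝓝 (e x x) ∧ IsCompact s ∧ s ⊆ (e x).target)
        fun s ↦ (e x).symm '' s := fun x ↦ by
      rw [← (e x).symm_map_nhds_eq (he x)]
      exact ((compact_basis_nhds (e x x)).hasBasis_self_subset
        ((e x).open_target.mem_nhds ((e x).map_source (he x)))).map _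
    refine .of_hasBasis this ?_
    rintro x s ⟨_, h₂, h₃⟩
    exact h₂.image_of_continuousOn ((e x).continuousOn_symm.mono h₃)
  have hLCo : LocallyConnectedSpace X := by
    rw [locallyConnectedSpace_iff_connected_subsets]
    intro x U hU
    have h := ((LocallyConnectedSpace.open_connected_basis (e x x)).restrict_subset
      ((e x).open_target.mem_nhds ((e x).map_source (he x)))).map (e x).symm
    rw [(e x).symm_map_nhds_eq (he x)] at h
    obtain ⟨s, hs, hsU⟩ := h.mem_iff.1 hU
    refine ⟨(e x).symm '' s, h.mem_of_mem hs, ?_, hsU⟩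
    exact hs.1.2.2.isPreconnected.image _ ((e x).continuousOn_symm.mono hs.2)
  have hsc : ∀ x : X, ∃ G : Set X, IsOpen G ∧ x ∈ G ∧ SecondCountableTopology G := by
    intro x
    exact ⟨(e x).source, (e x).open_source, he x, (e x).secondCountableTopology_source⟩
  have hM : TopologicalSpace.MetrizableSpace X := by
    refine Pool.Agent.Helper761.QD.main hsc G ⟨hGo, ?_⟩
    intro x U hU hx
    obtain ⟨k, ⟨g, hg, hxg⟩, hk⟩ := hG x U hU hx
    refine ⟨k, ⟨g, ⟨hg, hxg⟩, hxg⟩, ?_⟩
    rintro y ⟨g', ⟨hg', hxg'⟩, hy⟩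
    exact hk g' hg' hxg' hy
  refine ⟨hM, inferInstance, ?_⟩
  let _ := TopologicalSpace.metrizableSpaceMetric X
  refine ⟨fun k => {g | IsOpen g ∧ ∀ y ∈ g, ∀ z ∈ g, dist y z < 1 / ((k : ℝ) + 1)}, ?_, ?_⟩
  · intro k
    refine ⟨fun g hg => hg.1, ?_⟩
    rw [Set.eq_univ_iff_forall]
    intro x
    have hk : (0 : ℝ) < 1 / ((k : ℝ) + 1) := by positivity
    refine ⟨Metric.ball x (1 / ((k : ℝ) + 1) / 2), ⟨Metric.isOpen_ball, ?_⟩,
      Metric.mem_ball_self (half_pos hk)⟩
    intro y hy z hz
    rw [Metric.mem_ball] at hy hz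
    have := dist_triangle_right y z x
    linarith
  · intro x U hU hx
    obtain ⟨ε, hε, hball⟩ := Metric.isOpen_iff.1 hU x hx
    obtain ⟨k, hk⟩ := exists_nat_one_div_lt hε
    refine ⟨k, fun g hg hxg y hy => hball ?_⟩
    rw [Metric.mem_ball]
    exact (hg.2 y hy x hxg).trans hk

end Pool.Agent.Results.MP_81c63a_gt.HereditarilyNormal
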